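import Pool.Agent.Helper88.HG.Thue
import Pool.Agent.Helper13.HG.Ctx

/-!
# Block G4 of project HG: the choices exist
-/

set_option autoImplicit false

namespace Pool.Agent.Helper88.HG

open Polynomial NumberField IsDedekindDomain Pool.Agent.HG
open scoped IntermediateField

/-- outside the discriminant `p` is a uniformizer -/
theorem exists_zpow (F : Type) [Field F] [NumberField F] {Q : Pr F} {p : ℕ} (hp : p.Prime)
    (hQ : (p : 𝓞 F) ∈ Q.asIdeal) (hd : ¬ p ∣ (discr F).natAbs) {z : F} (hz : z ≠ 0) :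
    ∃ a : ℤ, Q.valuation F (z * (p : F) ^ a) = 1 := by
  have h2 := not_mem_sq hp hQ hd
  have h3 : Q.intValuation (p : 𝓞 F) = WithZero.exp (-(1 : ℤ)) := by
    have h1 : Q.intValuation (p : 𝓞 F) ≤ WithZero.exp (-((1 : ℕ) : ℤ)) :=
      (Q.intValuation_le_pow_iff_mem _ 1).2 (by simpa using hQ)
    have h2' : ¬ Q.intValuation (p : 𝓞 F) ≤ WithZero.exp (-((2 : ℕ) : ℤ)) := fun h =>
      h2 ((Q.intValuation_le_pow_iff_mem _ 2).1 h)
    have hx0 : (p : 𝓞 F) ≠ 0 := by exact_mod_cast hp.ne_zero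
    have h0 : Q.intValuation (p : 𝓞 F) ≠ 0 := Q.intValuation_ne_zero _ hx0
    obtain ⟨a, ha⟩ : ∃ a : ℤ, Q.intValuation (p : 𝓞 F) = WithZero.exp a :=
      ⟨WithZero.log (Q.intValuation (p : 𝓞 F)), (WithZero.exp_log h0).symm⟩
    rw [ha, WithZero.exp_le_exp] at h1 h2'
    rw [ha]
    congr 1
    push_cast at h1 h2'
    omega
  have h4 : Q.valuation F (p : F) = WithZero.exp (-(1 : ℤ)) := by
    have h5 : Q.valuation F (algebraMap (𝓞 F) F (p : 𝓞 F)) = Q.intValuation (p : 𝓞 F) :=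
      Q.valuation_of_algebraMap (K := F) (p : 𝓞 F)
    rw [h3] at h5
    have h6 : algebraMap (𝓞 F) F (p : 𝓞 F) = (p : F) := map_natCast _ _
    rw [h6] at h5
    exact h5
  have h0 := val_ne_zero Q hz
  refine ⟨WithZero.log (Q.valuation F z), ?_⟩
  rw [map_mul, map_zpow₀, h4, ← WithZero.exp_zsmul]
  conv_lhs => rw [← WithZero.exp_log h0]
  rw [← WithZero.exp_add]
  simp

/-- finitely many primes lie above divisors of `M` -/
theorem finite_bad (k : Type) [Field k] [NumberField k] {M : ℕ} (hM : M ≠ 0) :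
    {v : Pr k | ¬ Gd M v}.Finite := by
  have h1 : (Ideal.span {(M : 𝓞 k)}) ≠ 0 := by
    rw [Ne, Ideal.zero_eq_bot, Ideal.span_singleton_eq_bot]
    exact_mod_cast hM
  refine (Ideal.finite_factors h1).subset ?_
  intro v hv
  obtain ⟨p, hp, hpv⟩ := exists_prime v
  have h2 : p ∣ M := by
    by_contra h
    exact hv ⟨p, hp, h, hpv⟩
  obtain ⟨c, rfl⟩ := h2
  show v.asIdeal ∣ _
  rw [Ideal.dvd_span_singleton]
  push_cast
  exact Ideal.mul_mem_right _ _ hpv

theorem prime_unique {F : Type} [Field F] [NumberField F] {Q : Pr F} {p q : ℕ} (hp : p.Prime)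
    (hq : q.Prime) (hpQ : (p : 𝓞 F) ∈ Q.asIdeal) (hqQ : (q : 𝓞 F) ∈ Q.asIdeal) : p = q := by
  have h1 : ((q : ℤ) : 𝓞 F) ∈ Q.asIdeal := by rw [Int.cast_natCast]; exact hqQ
  have h2 : p ∣ q := by exact_mod_cast dvd_of_mem hp hpQ h1
  exact (Nat.prime_dvd_prime_iff_eq hp hq).1 h2

/-- **Block G4.** -/
theorem g4 : StmtG4 := by
  classical
  intro hT k L _ _ _ _ _ _ f hsep hsplit hdeg MA hMA
  have hf : f ≠ 0 := hsep.ne_zero
  obtain ⟨MT, K, hMT, hK, hthue⟩ := hT k f hsep L hsplit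
  obtain ⟨M₁, hM₁, hroots⟩ := exists_M_roots k L f
  obtain ⟨Ml, hMl, hlead⟩ := exists_M_unit (L := k) {f.leadingCoeff} (fun z hz => by
    rw [Finset.mem_singleton.1 hz]; exact leadingCoeff_ne_zero.2 hf)
  have hdk : (discr k).natAbs ≠ 0 := by rw [Ne, Int.natAbs_eq_zero]; exact discr_ne_zero k
  have hdL : (discr L).natAbs ≠ 0 := by rw [Ne, Int.natAbs_eq_zero]; exact discr_ne_zero L
  obtain ⟨M, hM⟩ : ∃ M, M = MA * 2 * MT * M₁ * Ml * (discr k).natAbs * (discr L).natAbs :=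
    ⟨_, rfl⟩
  have hM0 : M ≠ 0 := by
    rw [hM]
    exact mul_ne_zero (mul_ne_zero (mul_ne_zero (mul_ne_zero (mul_ne_zero
      (mul_ne_zero hMA two_ne_zero) hMT) hM₁) hMl) hdk) hdL
  have d1 : MA ∣ M := by rw [hM]; exact ⟨2 * MT * M₁ * Ml * (discr k).natAbs * (discr L).natAbs, by ring⟩
  have d2 : 2 ∣ M := by rw [hM]; exact ⟨MA * MT * M₁ * Ml * (discr k).natAbs * (discr L).natAbs, by ring⟩
  have d3 : MT ∣ M := by rw [hM]; exact ⟨MA * 2 * M₁ * Ml * (discr k).natAbs * (discr L).natAbs, by ring⟩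
  have d4 : M₁ ∣ M := by rw [hM]; exact ⟨MA * 2 * MT * Ml * (discr k).natAbs * (discr L).natAbs, by ring⟩
  have d5 : Ml ∣ M := by rw [hM]; exact ⟨MA * 2 * MT * M₁ * (discr k).natAbs * (discr L).natAbs, by ring⟩
  have d6 : (discr k).natAbs ∣ M := by
    rw [hM]; exact ⟨MA * 2 * MT * M₁ * Ml * (discr L).natAbs, by ring⟩
  have d7 : (discr L).natAbs ∣ M := by
    rw [hM]; exact ⟨MA * 2 * MT * M₁ * Ml * (discr k).natAbs, by ring⟩
  clear hM
  have mono : ∀ {M' p : ℕ} {v : Pr k} {P : Pr L}, M' ∣ M → Over M p v P → Over M' p v P :=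
    fun {M' p v P} hd h => ⟨h.prime, fun h' => h.not_dvd (h'.trans hd), h.mem, h.comap⟩
  choose P hP using fun v : Pr k => exists_over (L := L) v
  choose Fr hst hfr using fun v : Pr k => exists_frob (hP v)
  have hint : ∀ (p : ℕ) (v : Pr k) (P : Pr L), Over M p v P → ∀ θ ∈ f.rootSet L,
      P.valuation L θ ≤ 1 := fun p v P h => (hroots M p v P d4 h).1
  have hB : ∀ (v : Pr k) (o : L), ∃ B : k[X], ∀ p : ℕ, Over M p v (P v) → o ∈ f.rootSet L →
      Fr v o = o → IsThue f M K p v (P v) o B := by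
    intro v o
    by_cases hex : ∃ p, Over M p v (P v) ∧ o ∈ f.rootSet L ∧ Fr v o = o
    · obtain ⟨p, hp, ho, hFo⟩ := hex
      have h1 : (P v).valuation L (o ^ nm v - o) < 1 := by
        have h2 := hfr v o (hint p v (P v) hp o ho)
        rw [hFo] at h2
        have h3 : o ^ nm v - o = -(o - o ^ nm v) := by ring
        rw [h3, Valuation.map_neg]
        exact h2
      obtain ⟨B, a, ha0, haK, hB1, hB2, hB3⟩ := hthue p v (P v) (mono d3 hp) o ho h1
      refine ⟨B, fun q hq _ _ => ?_⟩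
      have hpq : p = q := prime_unique hp.prime hq.prime hp.mem hq.mem
      subst hpq
      exact {
        int := fun θ hθ hm => (hB1 θ hθ hm).1
        ne := fun θ hθ hm => (hB1 θ hθ hm).2.1
        small := fun θ hθ hm => (hB1 θ hθ hm).2.2.1
        norm := ⟨a, ha0, haK, fun θ hθ hm => (hB1 θ hθ hm).2.2.2⟩
        unit := fun p' v' P' h' => hB2 p' v' P' (mono d3 h')
        above := fun a' ha' P' h' => hB3 a' ha' P' (mono d3 h') }
    · exact ⟨0, fun p hp ho hFo => absurd ⟨p, hp, ho, hFo⟩ hex⟩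
  choose B hB using hB
  let X : Ctx k L f := {
    M := M
    K := K
    P := P
    F := Fr
    B := B
    sepf := hsep
    splits := hsplit
    hM := hM0
    two := d2
    hK := hK
    int := hint
    sep := fun p v P h => (hroots M p v P d4 h).2
    lead := fun p v hp hpM hpv => hlead p v hp (fun h => hpM (h.trans d5)) hpv _
      (Finset.mem_singleton_self _)
    unif := fun p v hp hpM hpv z hz => exists_zpow k hp hpv (fun h => hpM (h.trans d6)) hz
    unifL := fun p P hp hpM hpP z hz => exists_zpow L hp hpP (fun h => hpM (h.trans d7)) hz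
    comap := hP
    stab := hst
    frob := hfr
    thue := fun p v h o ho hFo => hB v o p h ho hFo }
  refine ⟨X, d1, ?_, finite_bad k hM0⟩
  obtain ⟨r, hr⟩ := Splits.exists_eval_eq_zero hsplit (by
    rw [degree_map]
    intro h
    have := natDegree_eq_of_degree_eq_some (n := 0) (by simpa using h)
    omega)
  have hr' : r ∈ X.Ω := by
    rw [X.mem_Ω, mem_rootSet_of_ne hf, aeval_def, ← eval_map]
    exact hr
  show 0 < (X.Ω.image (minpoly k)).card
  exact Finset.card_pos.2 ⟨_, Finset.mem_image_of_mem _ hr'⟩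

end Pool.Agent.Helper88.HG
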