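import Pool.Agent.Helper88.HG.RatPlace
import Pool.Agent.Helper91.Section.Quad
import Pool.Agent.Helper13.TW.Push

/-!
# A rational place gives a Galois section
-/

set_option autoImplicit false

universe u

namespace Pool.Agent.Helper88.HG

open IntermediateField Pool.Agent.Helper91.Sect

section rat

variable {k K : Type u} [Field k] [Field K] [Algebra k K]

/-- restriction of automorphisms to the constants -/
noncomputable def resK (k K : Type u) [Field k] [Field K] [Algebra k K] [Normal k (kbar k K)] :
    (AlgebraicClosure K ≃ₐ[K] AlgebraicClosure K) →* Gk k K :=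
  (AlgEquiv.restrictNormalHom (kbar k K)).comp (AlgEquiv.restrictScalarsHom k)

theorem coe_resK [Normal k (kbar k K)] (τ : AlgebraicClosure K ≃ₐ[K] AlgebraicClosure K)
    (z : kbar k K) : ((resK k K τ z : kbar k K) : AlgebraicClosure K) = τ z :=
  AlgEquiv.restrictNormal_commutes (τ.restrictScalars k) (kbar k K) z

theorem continuous_resK [Normal k (kbar k K)] : Continuous (resK k K) := by
  refine continuous_of_continuousAt_one (resK k K) ?_
  intro U hU
  rw [map_one] at hU
  rw [krullTopology_mem_nhds_one_iff] at hU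
  obtain ⟨L, hL, hsub⟩ := hU
  show (resK k K) ⁻¹' U ∈ nhds 1
  refine Filter.mem_of_superset ?_ (Set.preimage_mono hsub)
  let b := Module.finBasis k L
  have h1 : (⋂ i, {τ : AlgebraicClosure K ≃ₐ[K] AlgebraicClosure K |
      τ ((b i : kbar k K) : AlgebraicClosure K) ∈
        ({((b i : kbar k K) : AlgebraicClosure K)} : Set (AlgebraicClosure K))}) ∈ nhds 1 := by
    refine IsOpen.mem_nhds (isOpen_iInter_of_finite fun i => isOpen_apply _ _) ?_
    rw [Set.mem_iInter]
    intro i
    rfl
  refine Filter.mem_of_superset h1 ?_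
  intro τ hτ
  rw [Set.mem_iInter] at hτ
  show resK k K τ ∈ L.fixingSubgroup
  rw [IntermediateField.mem_fixingSubgroup_iff]
  intro z hz
  have h2 : (⟨z, hz⟩ : L) = ∑ i, b.repr ⟨z, hz⟩ i • b i := (b.sum_repr _).symm
  have h3 : z = ∑ i, b.repr ⟨z, hz⟩ i • (b i : kbar k K) := by
    have := congrArg (algebraMap L (kbar k K)) h2
    rw [map_sum] at this
    simpa [Algebra.smul_def] using this
  rw [h3, map_sum]
  refine Finset.sum_congr rfl fun i _ => ?_
  rw [map_smul]
  congr 1
  apply Subtype.ext
  rw [coe_resK]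
  exact hτ i

/-- **A rational place gives a Galois section.** -/
theorem section_of_place [CharZero k] (V : ValuationSubring K)
    (hk : ∀ c : k, algebraMap k K c ∈ V)
    (hres : ∀ z ∈ V, ∃ c : k, V.valuation (z - algebraMap k K c) < 1) :
    Nonempty (GaloisSection k K) := by
  classical
  have hK : CharZero K := charZero_of_injective_algebraMap (algebraMap k K).injective
  have hgal : IsGalois K (AlgebraicClosure K) := IsAlgClosure.isGalois K _
  have hnor : Normal K (Kur k K) := Pool.Agent.TW.normal_Kur
  obtain ⟨D, W, hD, hW, hlift, hin⟩ := exists_decomp (C := AlgebraicClosure K) V hk hres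
  let r : D →* Gk k K := (resK k K).comp D.subtype
  let π : D →* Pi1 k K := (AlgEquiv.restrictNormalHom (Kur k K)).comp D.subtype
  have hπ : ∀ (τ : D) (w : Kur k K), ((π τ w : Kur k K) : AlgebraicClosure K) = τ.1 w := by
    intro τ w
    exact AlgEquiv.restrictNormal_commutes τ.1 (Kur k K) w
  have hrz : ∀ (τ : D) (z : kbar k K), ((r τ z : kbar k K) : AlgebraicClosure K) = τ.1 z :=
    fun τ z => coe_resK τ.1 z
  have hr : Function.Surjective r := by
    intro σ
    obtain ⟨τ, h1, h2⟩ := hlift σ
    refine ⟨⟨τ, h1⟩, ?_⟩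
    apply AlgEquiv.ext
    intro z
    apply Subtype.ext
    rw [hrz]
    exact h2 z
  have hker : r.ker ≤ π.ker := by
    intro τ hτ
    rw [MonoidHom.mem_ker] at hτ ⊢
    apply AlgEquiv.ext
    intro w
    apply Subtype.ext
    rw [hπ]
    refine w.2 W hW τ.1 (hin τ.1 τ.2 fun z => ?_)
    rw [← hrz, hτ]
    rfl
  let s : Gk k K →* Pi1 k K := r.liftOfSurjective hr ⟨π, hker⟩
  have hs : ∀ τ : D, s (r τ) = π τ := fun τ => r.liftOfRightInverse_comp_apply _ _ ⟨π, hker⟩ τ
  refine ⟨⟨s, ?_, ?_⟩⟩
  · have hD : CompactSpace D := isCompact_iff_compactSpace.1 hD.isCompact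
    have hrc : Continuous r := continuous_resK.comp continuous_subtype_val
    have hπc : Continuous π :=
      (InfiniteGalois.restrictNormalHom_continuous (Kur k K)).comp continuous_subtype_val
    have hq : Topology.IsQuotientMap r := (hrc.isClosedMap).isQuotientMap hrc hr
    rw [hq.continuous_iff]
    have h1 : (s : Gk k K → Pi1 k K) ∘ r = π := funext hs
    rw [h1]
    exact hπc
  · intro σ z w hw
    obtain ⟨τ, rfl⟩ := hr σ
    rw [hs, hπ, hw]
    exact (hrz τ z).symm

end rat

end Pool.Agent.Helper88.HG
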