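import Pool.Agent.Helper88.HG.Lau
import Pool.Agent.Helper88.HG.RatPlace2
import Pool.Agent.Helper45.HG.DefsA

/-!
# The converse: a rational Weierstrass point gives a section for every twist
-/

set_option autoImplicit false

namespace Pool.Agent.Helper88.HG

open Polynomial Pool.Agent.HG Pool.Agent.Helper91.Sect

variable {k : Type} [Field k] [CharZero k]

/-- a section of the Laurent series field -/
theorem laurent_section : Nonempty (GaloisSection k (LaurentSeries k)) :=
  section_of_place (pvr k) (pvr_const k) (pvr_res k)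

theorem hasSection_of_root {f : k[X]} (hf : f.Separable) {a : k} (ha : f.eval a = 0) {c : k}
    (hc : c ≠ 0) : HasSection f c := by
  obtain ⟨g, hg⟩ := dvd_iff_isRoot.2 ha
  have hga : g.eval a ≠ 0 := by
    intro h0
    obtain ⟨g', hg'⟩ := dvd_iff_isRoot.2 h0
    have h1 : (X - C a) * (X - C a) ∣ f := ⟨g', by rw [hg, hg']; ring⟩
    exact (not_isUnit_X_sub_C a) (hf.squarefree _ h1)
  set e : k := c * g.eval a with he
  have he0 : e ≠ 0 := mul_ne_zero hc hga
  -- the polynomial `w`
  set w : k[X] := C (g.eval a)⁻¹ * g.comp (C a + C e * X ^ 2) with hw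
  have hw1 : PowerSeries.constantCoeff (w : PowerSeries k) = 1 := by
    rw [← PowerSeries.coeff_zero_eq_constantCoeff_apply, coeff_coe, coeff_zero_eq_eval_zero, hw]
    simp [hga]
  obtain ⟨u, hu⟩ := exists_sqrt (w : PowerSeries k) hw1
  have hcp : ∀ z : k, algebraMap k (LaurentSeries k) z = aeval (tt k) (C z) := fun z => by
    rw [aeval_C]
  refine ⟨LaurentSeries k, inferInstance, inferInstance, aeval (tt k) (C a + C e * X ^ 2),
    aeval (tt k) (C e * X) * algebraMap (PowerSeries k) (LaurentSeries k) u, ?_, ?_,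
    laurent_section⟩
  · -- transcendental
    intro halg
    apply transcendental_tt k
    have h1 : IsAlgebraic k ((tt k) ^ 2) := by
      have h2 : (tt k) ^ 2 = algebraMap k (LaurentSeries k) e⁻¹ *
          (aeval (tt k) (C a + C e * X ^ 2) - algebraMap k (LaurentSeries k) a) := by
        simp only [map_add, map_mul, map_pow, aeval_C, aeval_X]
        rw [add_sub_cancel_left, ← mul_assoc, ← map_mul, inv_mul_cancel₀ he0, map_one, one_mul]
      rw [h2]
      exact (isAlgebraic_algebraMap _).mul (halg.sub (isAlgebraic_algebraMap _))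
    exact h1.of_pow two_pos
  · have h1 : (algebraMap (PowerSeries k) (LaurentSeries k) u) ^ 2 = aeval (tt k) w := by
      rw [← map_pow, hu, coe_aeval]
    have h2 : aeval (aeval (tt k) (C a + C e * X ^ 2)) f =
        aeval (tt k) (f.comp (C a + C e * X ^ 2)) := by
      rw [aeval_comp]
    rw [mul_pow, h1, h2, hcp c, ← map_pow, ← map_mul, ← map_mul]
    congr 1
    rw [hg, mul_comp, hw]
    simp only [sub_comp, X_comp, C_comp]
    have h3 : C (g.eval a)⁻¹ * C e = (C c : k[X]) := by
      rw [← C_mul, he]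
      congr 1
      field_simp
    calc (C e * X) ^ 2 * (C (g.eval a)⁻¹ * g.comp (C a + C e * X ^ 2))
        = (C (g.eval a)⁻¹ * C e) * (C e * X ^ 2) * g.comp (C a + C e * X ^ 2) := by ring
      _ = C c * (C e * X ^ 2) * g.comp (C a + C e * X ^ 2) := by rw [h3]
      _ = C c * ((C a + C e * X ^ 2 - C a) * g.comp (C a + C e * X ^ 2)) := by ring

theorem hasSection_of_odd {f : k[X]} (hf : Odd f.natDegree) {c : k} (hc : c ≠ 0) :
    HasSection f c := by
  obtain ⟨m, hm⟩ := hf
  have hf0 : f ≠ 0 := by
    rintro rfl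
    rw [natDegree_zero] at hm
    omega
  set l := f.leadingCoeff with hl
  have hl0 : l ≠ 0 := leadingCoeff_ne_zero.2 hf0
  set e : k := c * l with he
  have he0 : e ≠ 0 := mul_ne_zero hc hl0
  set w : k[X] := C l⁻¹ * f.reverse.comp (C e⁻¹ * X ^ 2) with hw
  have hw1 : PowerSeries.constantCoeff (w : PowerSeries k) = 1 := by
    rw [← PowerSeries.coeff_zero_eq_constantCoeff_apply, coeff_coe, coeff_zero_eq_eval_zero, hw]
    simp only [eval_mul, eval_C, eval_comp, eval_pow, eval_X]
    rw [zero_pow two_ne_zero, mul_zero, ← coeff_zero_eq_eval_zero, coeff_zero_reverse]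
    exact inv_mul_cancel₀ hl0
  obtain ⟨u, hu⟩ := exists_sqrt (w : PowerSeries k) hw1
  have ht0 := tt_ne_zero k
  set t := tt k with ht
  set E := algebraMap k (LaurentSeries k) e with hE
  have hE0 : E ≠ 0 := by
    rw [hE, Ne, map_eq_zero]
    exact he0
  set x := E * (t ^ 2)⁻¹ with hx
  have hx0 : x ≠ 0 := mul_ne_zero hE0 (inv_ne_zero (pow_ne_zero _ ht0))
  refine ⟨LaurentSeries k, inferInstance, inferInstance, x,
    E ^ (m + 1) * (t ^ (2 * m + 1))⁻¹ * algebraMap (PowerSeries k) (LaurentSeries k) u, ?_, ?_,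
    laurent_section⟩
  · intro halg
    apply transcendental_tt k
    have h1 : IsAlgebraic k (t ^ 2) := by
      have h2 : t ^ 2 = E * x⁻¹ := by
        rw [hx]
        field_simp
      rw [h2]
      exact (isAlgebraic_algebraMap _).mul halg.inv
    exact h1.of_pow two_pos
  · have h1 : (algebraMap (PowerSeries k) (LaurentSeries k) u) ^ 2 = aeval t w := by
      rw [← map_pow, hu, ht, coe_aeval]
    have h2 : aeval x f = aeval x⁻¹ f.reverse * x ^ f.natDegree := by
      let _ : Invertible x := invertibleOfNonzero hx0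
      have h3 := eval₂_reverse_mul_pow (algebraMap k (LaurentSeries k)) x f
      rw [invOf_eq_inv] at h3
      exact h3.symm
    have h3 : aeval t w = algebraMap k (LaurentSeries k) l⁻¹ * aeval x⁻¹ f.reverse := by
      have h5 : aeval t (C e⁻¹ * X ^ 2) = x⁻¹ := by
        rw [map_mul, map_pow, aeval_C, aeval_X, map_inv₀, ← hE, hx, mul_inv, inv_inv]
      rw [hw, map_mul, aeval_C, aeval_comp, h5]
    have h4 : algebraMap k (LaurentSeries k) c = E * algebraMap k (LaurentSeries k) l⁻¹ := by
      rw [hE, ← map_mul, he]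
      congr 1
      field_simp
    rw [mul_pow, h1, h3, h2, hm, h4]
    generalize aeval x⁻¹ f.reverse = R
    generalize algebraMap k (LaurentSeries k) l⁻¹ = R'
    rw [hx, ← inv_pow t, ← inv_pow t]
    ring

/-- the curve `y² = c f(x)` itself has a section -/
theorem curve_section {f : k[X]} (h : (∃ a : k, f.Separable ∧ f.eval a = 0) ∨ Odd f.natDegree)
    {c : k} (hc : c ≠ 0) :
    ∃ (K : Type) (_ : Field K) (_ : Algebra k K) (x y : K), Transcendental k x ∧
      y ^ 2 = algebraMap k K c * aeval x f ∧ IntermediateField.adjoin k {x, y} = ⊤ ∧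
      Nonempty (GaloisSection k K) := by
  have h1 : HasSection f c := by
    rcases h with ⟨a, hf, ha⟩ | h
    · exact hasSection_of_root hf ha hc
    · exact hasSection_of_odd h hc
  obtain ⟨K, _, _, x, y, hx, hy, ⟨s⟩⟩ := h1
  let E := IntermediateField.adjoin k {x, y}
  have hxE : x ∈ E := IntermediateField.subset_adjoin _ _ (by simp)
  have hyE : y ∈ E := IntermediateField.subset_adjoin _ _ (by simp)
  have hcoe : ∀ p : k[X], ((aeval (⟨x, hxE⟩ : E) p : E) : K) = aeval x p := fun p =>
    (aeval_algebraMap_apply K (⟨x, hxE⟩ : E) p).symm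
  refine ⟨E, inferInstance, inferInstance, ⟨x, hxE⟩, ⟨y, hyE⟩, ?_, ?_, ?_, ?_⟩
  · intro halg
    exact hx (halg.algebraMap (A := K))
  · apply Subtype.ext
    show y ^ 2 = algebraMap k K c * ((aeval (⟨x, hxE⟩ : E) f : E) : K)
    rw [hcoe, hy]
  · have h2 : IntermediateField.lift (IntermediateField.adjoin k
        {(⟨x, hxE⟩ : E), (⟨y, hyE⟩ : E)}) = IntermediateField.lift (⊤ : IntermediateField k E) := by
      rw [IntermediateField.lift_adjoin, IntermediateField.lift_top]
      show IntermediateField.adjoin k ((fun z : E => (z : K)) '' {⟨x, hxE⟩, ⟨y, hyE⟩}) = E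
      rw [Set.image_pair]
    exact IntermediateField.lift_injective E h2
  · exact Pool.Agent.TW.push (K₁ := E) s

end Pool.Agent.Helper88.HG
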