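import Pool.Agent.Helper88.HG.Small

/-!
# The small element of the prime below (project HG, block THUE)
-/

set_option autoImplicit false

namespace Pool.Agent.Helper88.HG

open Polynomial NumberField IsDedekindDomain Pool.Agent.HG

section div

variable {F : Type} [Field F] [NumberField F]

theorem one_lt_nm (Q : Pr F) : 1 < nm Q := by
  have h0 : nm Q ≠ 0 := by
    unfold nm
    rw [Ne, Ideal.absNorm_eq_zero_iff]
    exact Q.ne_bot
  have h1 : nm Q ≠ 1 := by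
    unfold nm
    rw [Ne, Ideal.absNorm_eq_one_iff]
    exact Q.isPrime.ne_top
  omega

theorem unique_div {Q Q' : Pr F} {x : 𝓞 F} {a p : ℕ} (ha : a ≠ 0)
    (hN : Ideal.absNorm (Ideal.span {x}) = a * nm Q) (hp : p.Prime) (hpa : a < p)
    (hpQ' : (p : 𝓞 F) ∈ Q'.asIdeal) (hxQ : x ∈ Q.asIdeal) (hxQ' : x ∈ Q'.asIdeal) : Q' = Q := by
  by_contra hne
  have hm := Q.isMaximal
  have hm' := Q'.isMaximal
  have hcop : IsCoprime Q'.asIdeal Q.asIdeal := by
    rw [Ideal.isCoprime_iff_sup_eq]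
    exact hm'.coprime_of_ne hm fun h => hne (HeightOneSpectrum.ext h)
  have h1 : Q'.asIdeal * Q.asIdeal ∣ Ideal.span {x} :=
    hcop.mul_dvd (Ideal.dvd_span_singleton.2 hxQ') (Ideal.dvd_span_singleton.2 hxQ)
  have h2 := Ideal.absNorm_dvd_absNorm_of_le (Ideal.dvd_iff_le.1 h1)
  rw [map_mul, hN] at h2
  have h3 : nm Q' ∣ a := Nat.dvd_of_mul_dvd_mul_right (Nat.lt_trans zero_lt_one (one_lt_nm Q)) h2
  have h4 : p ∣ a := (absNorm_mem_dvd hp hpQ').trans h3
  exact absurd (Nat.le_of_dvd (Nat.pos_of_ne_zero ha) h4) (by omega)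

theorem not_sq {Q : Pr F} {x : 𝓞 F} {a p : ℕ} (ha : a ≠ 0)
    (hN : Ideal.absNorm (Ideal.span {x}) = a * nm Q) (hp : p.Prime) (hpa : a < p)
    (hpQ : (p : 𝓞 F) ∈ Q.asIdeal) : x ∉ Q.asIdeal ^ 2 := by
  intro h
  have h1 : Q.asIdeal ^ 2 ∣ Ideal.span {x} := Ideal.dvd_span_singleton.2 h
  have h2 := Ideal.absNorm_dvd_absNorm_of_le (Ideal.dvd_iff_le.1 h1)
  rw [map_pow, hN, sq] at h2
  have h3 : nm Q ∣ a := Nat.dvd_of_mul_dvd_mul_right (Nat.lt_trans zero_lt_one (one_lt_nm Q)) h2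
  have h4 : p ∣ a := (absNorm_mem_dvd hp hpQ).trans h3
  exact absurd (Nat.le_of_dvd (Nat.pos_of_ne_zero ha) h4) (by omega)

end div

section ovr

variable {k F L : Type} [Field k] [NumberField k] [Field F] [NumberField F] [Field L]
  [NumberField L] [Algebra k F] [Algebra k L]

theorem below_comap (ι : F →ₐ[k] L) {v : Pr k} {P : Pr L}
    (h : P.asIdeal.comap (algebraMap (𝓞 k) (𝓞 L)) = v.asIdeal) :
    (below (ι : F →+* L) P).asIdeal.comap (algebraMap (𝓞 k) (𝓞 F)) = v.asIdeal := by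
  ext a
  rw [Ideal.mem_comap, mem_below, ← h, Ideal.mem_comap, ← val_int_lt]
  have h1 : (ι : F →+* L) ((algebraMap (𝓞 k) (𝓞 F) a : 𝓞 F) : F) =
      ((algebraMap (𝓞 k) (𝓞 L) a : 𝓞 L) : L) := ι.commutes (a : k)
  rw [h1]

theorem nm_eq {Q : Pr F} {v : Pr k}
    (h : Q.asIdeal.comap (algebraMap (𝓞 k) (𝓞 F)) = v.asIdeal)
    (hz : ∀ z : 𝓞 F, z ^ nm v - z ∈ Q.asIdeal) : nm Q = nm v := by
  classical
  have hm := Q.isMaximal
  let _ : Field (𝓞 F ⧸ Q.asIdeal) := Ideal.Quotient.field _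
  have hfin : Finite (𝓞 F ⧸ Q.asIdeal) := Ideal.finiteQuotientOfFreeOfNeBot _ Q.ne_bot
  let _ : Fintype (𝓞 F ⧸ Q.asIdeal) := Fintype.ofFinite _
  have hv1 := one_lt_nm v
  apply le_antisymm
  · have h0 := FiniteField.X_pow_card_sub_X_ne_zero (𝓞 F ⧸ Q.asIdeal) hv1
    have hd := FiniteField.X_pow_card_sub_X_natDegree_eq (𝓞 F ⧸ Q.asIdeal) hv1
    have h1 : (Finset.univ : Finset (𝓞 F ⧸ Q.asIdeal)) ⊆
        (X ^ nm v - X : (𝓞 F ⧸ Q.asIdeal)[X]).roots.toFinset := by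
      intro y _
      rw [Multiset.mem_toFinset, mem_roots h0, IsRoot.def]
      obtain ⟨z, rfl⟩ := Ideal.Quotient.mk_surjective y
      have h2 := Ideal.Quotient.eq_zero_iff_mem.2 (hz z)
      simpa using h2
    have h2 : nm Q = Fintype.card (𝓞 F ⧸ Q.asIdeal) := by
      rw [← Nat.card_eq_fintype_card]; rfl
    rw [h2, ← Finset.card_univ, ← hd]
    exact (Finset.card_le_card h1).trans ((Multiset.toFinset_card_le _).trans (card_roots' _))
  · have h1 : Function.Injective (Ideal.quotientMap Q.asIdeal (algebraMap (𝓞 k) (𝓞 F))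
        (h.ge : v.asIdeal ≤ _)) := Ideal.quotientMap_injective' h.le
    show Nat.card (𝓞 k ⧸ v.asIdeal) ≤ Nat.card (𝓞 F ⧸ Q.asIdeal)
    exact Nat.card_le_card_of_injective _ h1

variable [IsGalois k L] {f : k[X]}

/-- the prime below `P` is determined by the residue of `o` -/
theorem below_unique (o : F) (hgen : ∀ z : F, ∃ g : k[X], z = aeval o g) {v : Pr k} {P P' : Pr L}
    (hof : ∀ ι : F →ₐ[k] L, ι o ∈ f.rootSet L)
    (hsep : ∀ θ ∈ f.rootSet L, ∀ θ' ∈ f.rootSet L, θ ≠ θ' → P'.valuation L (θ - θ') = 1)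
    (hP : P.asIdeal.comap (algebraMap (𝓞 k) (𝓞 L)) = v.asIdeal)
    (hP' : P'.asIdeal.comap (algebraMap (𝓞 k) (𝓞 L)) = v.asIdeal) (a' : 𝓞 k)
    (ι ι' : F →ₐ[k] L) (h : P.valuation L (algebraMap k L a' - ι o) < 1)
    (h' : P'.valuation L (algebraMap k L a' - ι' o) < 1) :
    below (ι : F →+* L) P = below (ι' : F →+* L) P' := by
  obtain ⟨g, hg⟩ := exists_conj' hP hP'
  have h1 := (val_lt_conj hg _).1 h
  rw [map_sub, g.commutes] at h1
  have h2 : P'.valuation L (g (ι o) - ι' o) < 1 := by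
    have h3 : g (ι o) - ι' o = (algebraMap k L a' - ι' o) + -(algebraMap k L a' - g (ι o)) := by
      ring
    rw [h3]
    exact Valuation.map_add_lt _ h' (by rwa [Valuation.map_neg])
  have h3 : g (ι o) = ι' o := by
    by_contra hne
    have := hsep _ (hof ((g : L →ₐ[k] L).comp ι)) _ (hof ι') hne
    rw [show ((g : L →ₐ[k] L).comp ι) o = g (ι o) from rfl] at this
    rw [this] at h2
    exact lt_irrefl _ h2
  have h4 : ∀ z : F, g (ι z) = ι' z := by
    intro z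
    obtain ⟨q, rfl⟩ := hgen z
    rw [← aeval_algHom_apply, ← aeval_algHom_apply ι', ← h3]
    exact (aeval_algHom_apply (g : L →ₐ[k] L) (ι o) q).symm
  apply HeightOneSpectrum.ext
  ext z
  rw [mem_below, mem_below, val_lt_conj hg]
  have h5 : g ((ι : F →+* L) (z : F)) = (ι' : F →+* L) (z : F) := h4 z
  rw [h5]

/-- the residue field -/
theorem below_residue (o : F) (hgen : ∀ z : F, ∃ g : k[X], z = aeval o g) {v : Pr k} {P : Pr L}
    (hof : ∀ ι : F →ₐ[k] L, ι o ∈ f.rootSet L)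
    (hsep : ∀ θ ∈ f.rootSet L, ∀ θ' ∈ f.rootSet L, θ ≠ θ' → P.valuation L (θ - θ') = 1)
    (hint : ∀ θ ∈ f.rootSet L, P.valuation L θ ≤ 1)
    (hP : P.asIdeal.comap (algebraMap (𝓞 k) (𝓞 L)) = v.asIdeal)
    (ι : F →ₐ[k] L) (h : P.valuation L (ι o ^ nm v - ι o) < 1) (z : 𝓞 F) :
    z ^ nm v - z ∈ (below (ι : F →+* L) P).asIdeal := by
  obtain ⟨σ, -, hσ⟩ := exists_frob hP
  have h1 := hσ (ι o) (hint _ (hof ι))
  have h2 : P.valuation L (σ (ι o) - ι o) < 1 := by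
    have h3 : σ (ι o) - ι o = (σ (ι o) - ι o ^ nm v) + (ι o ^ nm v - ι o) := by ring
    rw [h3]
    exact Valuation.map_add_lt _ h1 h
  have h3 : σ (ι o) = ι o := by
    by_contra hne
    have := hsep _ (hof ((σ : L →ₐ[k] L).comp ι)) _ (hof ι) hne
    rw [show ((σ : L →ₐ[k] L).comp ι) o = σ (ι o) from rfl] at this
    rw [this] at h2
    exact lt_irrefl _ h2
  have h4 : ∀ z : F, σ (ι z) = ι z := by
    intro z
    obtain ⟨q, rfl⟩ := hgen z
    rw [← aeval_algHom_apply ι]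
    have h5 := (aeval_algHom_apply (σ : L →ₐ[k] L) (ι o) q).symm
    rw [show (σ : L →ₐ[k] L) (ι o) = ι o from h3] at h5
    exact h5
  rw [mem_below]
  have h5 := hσ (ι z) (val_int P (RingOfIntegers.mapRingHom (ι : F →+* L) z))
  rw [h4] at h5
  have h6 : (ι : F →+* L) ((z ^ nm v - z : 𝓞 F) : F) = -(ι (z : F) - ι (z : F) ^ nm v) := by
    push_cast
    rw [map_sub, map_pow]
    simp
  rw [h6, Valuation.map_neg]
  exact h5

end ovr

end Pool.Agent.Helper88.HG
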