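import Mathlib

/-!
# Laurent series: square roots, the valuation ring, transcendence of the variable
-/

set_option autoImplicit false

namespace Pool.Agent.Helper88.HG

open PowerSeries

theorem exists_sqrt {k : Type*} [Field k] [CharZero k] (w : k⟦X⟧) (hw : constantCoeff w = 1) :
    ∃ u : k⟦X⟧, u ^ 2 = w := by
  have hs : HasSubst (w - 1) := HasSubst.of_constantCoeff_zero' (by simp [hw])
  refine ⟨substAlgHom (R := k) hs (binomialSeries k (1 / 2 : ℚ)), ?_⟩
  rw [← map_pow, sq, ← binomialSeries_add, show (1 / 2 : ℚ) + 1 / 2 = ((1 : ℕ) : ℚ) by norm_num,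
    binomialSeries_nat, pow_one, map_add, map_one, substAlgHom_X]
  ring

section val

variable (k : Type) [Field k]

/-- the valuation ring of the power series in the field of Laurent series -/
noncomputable def pvr : ValuationSubring (LaurentSeries k) where
  carrier := Set.range (algebraMap k⟦X⟧ (LaurentSeries k))
  mul_mem' := by
    rintro _ _ ⟨a, rfl⟩ ⟨b, rfl⟩
    exact ⟨a * b, map_mul _ _ _⟩
  one_mem' := ⟨1, map_one _⟩
  add_mem' := by
    rintro _ _ ⟨a, rfl⟩ ⟨b, rfl⟩
    exact ⟨a + b, map_add _ _ _⟩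
  zero_mem' := ⟨0, map_zero _⟩
  neg_mem' := by
    rintro _ ⟨a, rfl⟩
    exact ⟨-a, map_neg _ _⟩
  mem_or_inv_mem' := by
    intro x
    exact ValuationRing.isInteger_or_isInteger k⟦X⟧ x

theorem mem_pvr (z : LaurentSeries k) : z ∈ pvr k ↔ ∃ g : k⟦X⟧, algebraMap k⟦X⟧ _ g = z := Iff.rfl

theorem algebraMap_eq (c : k) : algebraMap k (LaurentSeries k) c =
    algebraMap k⟦X⟧ (LaurentSeries k) (C c) := by
  rw [LaurentSeries.coe_algebraMap]
  have h1 : HahnSeries.ofPowerSeries ℤ k (C c) = HahnSeries.C c := PowerSeries.coe_C c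
  rw [h1]
  exact LaurentSeries.algebraMap_apply k c

theorem pvr_const (c : k) : algebraMap k (LaurentSeries k) c ∈ pvr k :=
  ⟨C c, (algebraMap_eq k c).symm⟩

theorem pvr_res (z : LaurentSeries k) (hz : z ∈ pvr k) :
    ∃ c : k, (pvr k).valuation (z - algebraMap k (LaurentSeries k) c) < 1 := by
  obtain ⟨g, rfl⟩ := hz
  refine ⟨constantCoeff g, ?_⟩
  have h1 : algebraMap k⟦X⟧ (LaurentSeries k) g -
      algebraMap k (LaurentSeries k) (constantCoeff g) =
      algebraMap k⟦X⟧ (LaurentSeries k) (g - C (constantCoeff g)) := by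
    rw [algebraMap_eq, map_sub]
  rw [h1, ← ValuationSubring.mem_nonunits_iff, ValuationSubring.mem_nonunits_iff_or]
  by_cases h0 : g - C (constantCoeff g) = 0
  · left
    rw [h0, map_zero]
  · right
    rintro ⟨h, hh⟩
    have h2 : algebraMap k⟦X⟧ (LaurentSeries k) (g - C (constantCoeff g)) ≠ 0 := by
      rw [Ne, map_eq_zero_iff _ (IsFractionRing.injective k⟦X⟧ (LaurentSeries k))]
      exact h0
    have h3 : algebraMap k⟦X⟧ (LaurentSeries k) ((g - C (constantCoeff g)) * h) =
        algebraMap k⟦X⟧ (LaurentSeries k) 1 := by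
      rw [map_mul, hh, map_one]
      exact mul_inv_cancel₀ h2
    have h4 := IsFractionRing.injective k⟦X⟧ (LaurentSeries k) h3
    have h5 := congrArg constantCoeff h4
    simp at h5

/-- the variable -/
noncomputable def tt : LaurentSeries k := algebraMap k⟦X⟧ (LaurentSeries k) X

theorem tt_ne_zero : tt k ≠ 0 := by
  unfold tt
  rw [Ne, map_eq_zero_iff _ (IsFractionRing.injective k⟦X⟧ (LaurentSeries k))]
  exact X_ne_zero

theorem coe_aeval (p : Polynomial k) : Polynomial.aeval (tt k) p =
    algebraMap k⟦X⟧ (LaurentSeries k) (p : k⟦X⟧) := by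
  induction p using Polynomial.induction_on' with
  | add p q hp hq => rw [map_add, hp, hq, Polynomial.coe_add, map_add]
  | monomial n a =>
    rw [Polynomial.aeval_monomial, algebraMap_eq, tt, ← map_pow, ← map_mul]
    congr 1
    rw [← Polynomial.C_mul_X_pow_eq_monomial, Polynomial.coe_mul, Polynomial.coe_pow,
      Polynomial.coe_C, Polynomial.coe_X]

theorem transcendental_tt : Transcendental k (tt k) := by
  rw [transcendental_iff]
  intro p hp
  rw [coe_aeval, map_eq_zero_iff _ (IsFractionRing.injective k⟦X⟧ (LaurentSeries k))] at hp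
  exact_mod_cast hp

end val

end Pool.Agent.Helper88.HG
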