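import Pool.Agent.Helper91.Section.Decomp

/-!
# The decomposition group of a rational place

`K/k` is a field extension in characteristic zero, `V` a valuation ring of `K` which contains `k` and
whose residue field is `k`, `C` an algebraic closure of `K`.  The decomposition group of an extension
of `V` to `C`, modulo the inertia group, is the absolute Galois group of `k`.
-/

set_option autoImplicit false

universe u

namespace Pool.Agent.Helper88.HG

open IntermediateField Pool.Agent.Helper91.Sect Polynomial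

theorem bij_of_monic {A R : Type*} [Field A] [IsAlgClosed A] [CommRing R] [IsDomain R]
    (e : A →+* R) (h : ∀ x : R, ∃ q : A[X], q.Monic ∧ eval₂ e x q = 0) :
    Function.Bijective e := by
  let _ : Algebra A R := e.toAlgebra
  have hint : Algebra.IsIntegral A R := ⟨fun x => h x⟩
  exact IsAlgClosed.algebraMap_bijective_of_isIntegral (k := A) (K := R)

section rat

variable {k K C : Type u} [Field k] [Field K] [Algebra k K] [Field C] [Algebra K C] [Algebra k C]
  [IsScalarTower k K C] (V : ValuationSubring K)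

theorem const_integral (hk : ∀ c : k, algebraMap k K c ∈ V) {z : C}
    (hz : IsAlgebraic k z) : IsIntegral V z := by
  obtain ⟨p, hp, hz0⟩ := hz.isIntegral
  let f : k →+* V := (algebraMap k K).codRestrict V.toSubring hk
  refine ⟨p.map f, hp.map f, ?_⟩
  rw [eval₂_map]
  have h1 : (algebraMap V C).comp f = algebraMap k C := by
    ext c
    rw [IsScalarTower.algebraMap_apply k K C]
    rfl
  rw [h1]
  exact hz0

/-- the constants in the integral closure -/
noncomputable def constB (hk : ∀ c : k, algebraMap k K c ∈ V) :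
    algebraicClosure k C →+* integralClosure V C :=
  RingHom.codRestrict (algebraMap (algebraicClosure k C) C)
    (integralClosure V C).toSubring
    fun z => const_integral V hk (mem_algebraicClosure_iff.1 z.2)

theorem coe_constB (hk : ∀ c : k, algebraMap k K c ∈ V) (z : algebraicClosure k C) :
    ((constB V hk z : integralClosure V C) : C) = z := rfl

omit [Algebra k K] [Algebra k C] [IsScalarTower k K C] in
theorem exists_Q : ∃ Q : Ideal (integralClosure V C), Q.IsPrime ∧
    Q.comap (algebraMap V (integralClosure V C)) = IsLocalRing.maximalIdeal V := by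
  obtain ⟨Q, hQ, h⟩ := Ideal.exists_ideal_over_prime_of_isIntegral_of_isDomain
    (R := V) (S := integralClosure V C) (IsLocalRing.maximalIdeal V) (by
      rw [(RingHom.injective_iff_ker_eq_bot _).1 ?_]
      · exact bot_le
      · intro a b hab
        apply Subtype.ext
        apply (algebraMap K C).injective
        exact congrArg Subtype.val hab)
  exact ⟨Q, hQ, h⟩

variable (Q : Ideal (integralClosure V C)) [hQ : Q.IsPrime]
  (hQV : Q.comap (algebraMap V (integralClosure V C)) = IsLocalRing.maximalIdeal V)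
  (hk : ∀ c : k, algebraMap k K c ∈ V)
  (hres : ∀ z ∈ V, ∃ c : k, V.valuation (z - algebraMap k K c) < 1)

omit hQ in
include hQV hres in
/-- an element of `V` is congruent to a constant modulo `Q` -/
theorem mk_V (a : V) : ∃ c : k, Ideal.Quotient.mk Q (algebraMap V _ a) =
    Ideal.Quotient.mk Q (constB V hk (algebraMap k (algebraicClosure k C) c)) := by
  obtain ⟨c, hc⟩ := hres a a.2
  refine ⟨c, ?_⟩
  rw [Ideal.Quotient.eq]
  have h1 : algebraMap V (integralClosure V C) a -
      constB V hk (algebraMap k (algebraicClosure k C) c) =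
      algebraMap V (integralClosure V C) (a - ⟨algebraMap k K c, hk c⟩) := by
    apply Subtype.ext
    show algebraMap K C a - algebraMap k C c =
      algebraMap K C ((a : K) - algebraMap k K c)
    rw [map_sub, ← IsScalarTower.algebraMap_apply]
  rw [h1, ← Ideal.mem_comap, hQV, ValuationSubring.valuation_lt_one_iff]
  exact hc

include hQV hres in
/-- the residue field at `Q` is the algebraic closure of `k` -/
theorem bij [IsAlgClosed C] :
    Function.Bijective ((Ideal.Quotient.mk Q).comp (constB (C := C) V hk)) := by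
  have hcl : IsAlgClosed (algebraicClosure k C) :=
    (algebraicClosure.isAlgClosure k C).isAlgClosed
  refine bij_of_monic (A := algebraicClosure k C) (R := integralClosure V C ⧸ Q)
    ((Ideal.Quotient.mk Q).comp (constB (C := C) V hk)) ?_
  intro x
  obtain ⟨b, rfl⟩ := Ideal.Quotient.mk_surjective x
  have hb : IsIntegral V b := integralClosure.isIntegral b
  obtain ⟨p, hp, hpb⟩ := hb
  set g : V →+* (integralClosure V C ⧸ Q) :=
    (Ideal.Quotient.mk Q).comp (algebraMap V _) with hg
  have hpg : eval₂ g (Ideal.Quotient.mk Q b) p = 0 := by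
    rw [hg, ← hom_eval₂, hpb, map_zero]
  have hl : p.map g ∈ lifts ((Ideal.Quotient.mk Q).comp (constB (C := C) V hk)) := by
    rw [lifts_iff_coeff_lifts]
    intro n
    rw [coeff_map]
    obtain ⟨c, hc⟩ := mk_V V Q hQV hk hres (p.coeff n)
    exact ⟨algebraMap k (algebraicClosure k C) c, hc.symm⟩
  obtain ⟨q, hq, -, hqm⟩ := lifts_and_degree_eq_and_monic hl (hp.map g)
  refine ⟨q, hqm, ?_⟩
  rw [← eval_map, hq, eval_map]
  exact hpg

theorem isOpen_apply {K' Ω' : Type u} [Field K'] [Field Ω'] [Algebra K' Ω']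
    [Algebra.IsIntegral K' Ω'] (z : Ω') (S : Set Ω') :
    IsOpen {τ : Ω' ≃ₐ[K'] Ω' | τ z ∈ S} := by
  rw [isOpen_iff_mem_nhds]
  intro τ hτ
  have h1 : IsOpen (MulAction.stabilizer (Ω' ≃ₐ[K'] Ω') z : Set (Ω' ≃ₐ[K'] Ω')) :=
    stabilizer_isOpen_of_isIntegral (K := K') (L := Ω') z
  have h2 : IsOpen ((fun ρ : Ω' ≃ₐ[K'] Ω' => τ⁻¹ * ρ) ⁻¹'
      (MulAction.stabilizer (Ω' ≃ₐ[K'] Ω') z : Set (Ω' ≃ₐ[K'] Ω'))) :=
    h1.preimage (continuous_const.mul continuous_id)
  refine Filter.mem_of_superset (h2.mem_nhds ?_) ?_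
  · show τ⁻¹ * τ ∈ MulAction.stabilizer (Ω' ≃ₐ[K'] Ω') z
    rw [inv_mul_cancel]
    exact one_mem _
  · intro ρ hρ
    have h3 : (τ⁻¹ * ρ) z = z := hρ
    have h4 : ρ z = τ z := by
      have h5 := congrArg τ h3
      have h6 : τ ((τ⁻¹ * ρ) z) = ρ z := by
        change (τ * (τ⁻¹ * ρ)) z = ρ z
        rw [mul_inv_cancel_left]
      rw [h6] at h5
      exact h5
    show ρ z ∈ S
    rw [h4]
    exact hτ

/-- the decomposition group of `Q` -/
def DQ : Subgroup (C ≃ₐ[K] C) where
  carrier := {τ | ∀ b : integralClosure V C, τ • b ∈ Q ↔ b ∈ Q}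
  mul_mem' := by
    intro a b ha hb x
    rw [mul_smul, ha, hb]
  one_mem' := by
    intro b
    rw [one_smul]
  inv_mem' := by
    intro a ha x
    rw [← ha, smul_inv_smul]

omit hQ [Algebra k K] [Algebra k C] [IsScalarTower k K C] in
theorem isClosed_DQ [Algebra.IsIntegral K C] : IsClosed (DQ V Q : Set (C ≃ₐ[K] C)) := by
  have h1 : (DQ V Q : Set (C ≃ₐ[K] C)) =
      ⋂ b : integralClosure V C, {τ | τ • b ∈ Q ↔ b ∈ Q} := by
    ext τ
    rw [Set.mem_iInter]
    rfl
  rw [h1]
  refine isClosed_iInter fun b => ?_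
  rw [← isOpen_compl_iff]
  have h2 : ({τ : C ≃ₐ[K] C | τ • b ∈ Q ↔ b ∈ Q})ᶜ =
      {τ : C ≃ₐ[K] C | τ (b : C) ∈
        {z | ¬ ((∃ b' : integralClosure V C, (b' : C) = z ∧ b' ∈ Q) ↔ b ∈ Q)}} := by
    ext τ
    rw [Set.mem_compl_iff, Set.mem_setOf_eq, Set.mem_setOf_eq, Set.mem_setOf_eq]
    have h3 : τ • b ∈ Q ↔ ∃ b' : integralClosure V C, (b' : C) = τ (b : C) ∧ b' ∈ Q := by
      constructor
      · intro h
        exact ⟨τ • b, rfl, h⟩
      · rintro ⟨b', hb, h⟩
        have h4 : b' = τ • b := Subtype.ext hb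
        rwa [← h4]
    rw [h3]
  rw [h2]
  exact isOpen_apply _ _

include hQV hk hres in
theorem exists_lift_DQ [IsAlgClosed C] [IsGalois K C]
    (σ : algebraicClosure k C ≃ₐ[k] algebraicClosure k C) :
    ∃ τ ∈ DQ V Q, ∀ z : algebraicClosure k C, τ (z : C) = σ z := by
  let e : algebraicClosure k C ≃+* (integralClosure V C ⧸ Q) :=
    RingEquiv.ofBijective _ (bij V Q hQV hk hres)
  have he : ∀ z, e z = Ideal.Quotient.mk Q (constB V hk z) := fun _ => rfl
  let φ : (integralClosure V C ⧸ Q) ≃+* (integralClosure V C ⧸ Q) :=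
    (e.symm.trans σ.toRingEquiv).trans e
  have hφ : ∀ z, φ (e z) = e (σ z) := by
    intro z
    show e (σ (e.symm (e z))) = e (σ z)
    rw [RingEquiv.symm_apply_apply]
  obtain ⟨τ, -, h1, h2⟩ := exists_lift (k := K) (C := C) (O := V) ⊤ isClosed_univ Q φ (by
      intro b hb
      have h1 : (b : C) ∈ (⊥ : IntermediateField K C) := by
        rw [InfiniteGalois.mem_bot_iff_fixed]
        intro f
        exact congrArg Subtype.val (hb f trivial)
      obtain ⟨a, ha⟩ := mem_bot.1 h1
      have h2 : IsIntegral V a := by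
        have h3 : IsIntegral V (algebraMap K C a) := by
          rw [ha]; exact b.2
        exact (isIntegral_algebraMap_iff (algebraMap K C).injective).1 h3
      obtain ⟨a', ha'⟩ := IsIntegrallyClosed.algebraMap_eq_of_integral h2
      have h3 : b = algebraMap V _ a' := by
        apply Subtype.ext
        rw [← ha, ← ha']
        rfl
      obtain ⟨c, hc⟩ := mk_V V Q hQV hk hres a'
      rw [h3, hc, ← he, hφ, σ.commutes])
  refine ⟨τ, h1, ?_⟩
  intro z
  have hmem : IsAlgebraic k (τ (z : C)) :=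
    (mem_algebraicClosure_iff.1 z.2).algHom ((τ : C →ₐ[K] C).restrictScalars k)
  have h3 := h2 (constB V hk z)
  rw [← he, hφ, he] at h3
  have h4 : τ • constB V hk z = constB V hk ⟨τ (z : C), mem_algebraicClosure_iff.2 hmem⟩ := by
    apply Subtype.ext
    rfl
  rw [h4, ← he, ← he] at h3
  exact congrArg Subtype.val (e.injective h3)

include hQV hk hres in
theorem inertia_of_const [IsAlgClosed C] [IsGalois K C] {τ : C ≃ₐ[K] C} (hτ : τ ∈ DQ V Q)
    (h1 : ∀ z : algebraicClosure k C, τ (z : C) = z) :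
    (∀ z, τ z ∈ locW Q ↔ z ∈ locW Q) ∧ ∀ z ∈ locW Q, (locW Q).valuation (τ z - z) < 1 := by
  refine ⟨stab_locW Q hτ, fun w hw => inertia_locW Q hτ ?_ hw⟩
  intro b
  obtain ⟨z, hz⟩ := (bij V Q hQV hk hres).2 (Ideal.Quotient.mk Q b)
  have h2 : b - constB V hk z ∈ Q := by
    rw [← Ideal.Quotient.eq]
    exact hz.symm
  have h3 : τ • constB V hk z = constB V hk z := by
    apply Subtype.ext
    exact h1 z
  have h4 : τ • b - b = τ • (b - constB V hk z) - (b - constB V hk z) := by
    rw [smul_sub, h3]; ring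
  rw [h4]
  exact Q.sub_mem ((hτ _).2 h2) h2

end rat

/-- the decomposition group -/
theorem exists_decomp {k K C : Type u} [Field k] [Field K] [Algebra k K] [Field C] [Algebra K C]
    [Algebra k C] [IsScalarTower k K C] [IsAlgClosed C] [IsGalois K C] (V : ValuationSubring K)
    (hk : ∀ c : k, algebraMap k K c ∈ V)
    (hres : ∀ z ∈ V, ∃ c : k, V.valuation (z - algebraMap k K c) < 1) :
    ∃ (D : Subgroup (C ≃ₐ[K] C)) (W : ValuationSubring C), IsClosed (D : Set (C ≃ₐ[K] C)) ∧
      (∀ c : k, algebraMap k C c ∈ W) ∧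
      (∀ σ : algebraicClosure k C ≃ₐ[k] algebraicClosure k C,
        ∃ τ ∈ D, ∀ z : algebraicClosure k C, τ (z : C) = σ z) ∧
      ∀ τ ∈ D, (∀ z : algebraicClosure k C, τ (z : C) = z) →
        (∀ z, τ z ∈ W ↔ z ∈ W) ∧ ∀ z ∈ W, W.valuation (τ z - z) < 1 := by
  obtain ⟨Q, hQ, hQV⟩ := exists_Q (C := C) V
  refine ⟨DQ V Q, locW Q, isClosed_DQ V Q, ?_, exists_lift_DQ V Q hQV hk hres, ?_⟩
  · intro c
    exact coe_mem_locW Q (constB V hk (algebraMap k (algebraicClosure k C) c))
  · intro τ hτ h1
    exact inertia_of_const V Q hQV hk hres hτ h1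

end Pool.Agent.Helper88.HG
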