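import Pool.Agent.Helper13.HG.Base

/-!
# Small elements of ideals (pigeonhole), unramified primes, primes below (project HG, block THUE)
-/

set_option autoImplicit false

namespace Pool.Agent.Helper88.HG

open Polynomial NumberField IsDedekindDomain Pool.Agent.HG

section small

variable (F : Type) [Field F] [NumberField F]

/-- a nonzero ideal of norm `N` contains a nonzero element all of whose conjugates are bounded by a
constant times `N ^ (1 / n)` -/
theorem exists_small : ∃ K : ℝ, 1 ≤ K ∧ ∀ I : Ideal (𝓞 F), I ≠ ⊥ →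
    ∃ x ∈ I, x ≠ 0 ∧ ∀ φ : F →+* ℂ, ‖φ (x : F)‖ ≤
      K * (Ideal.absNorm I : ℝ) ^ ((1 : ℝ) / Module.finrank ℚ F) := by
  classical
  let b := RingOfIntegers.basis F
  let ι := Module.Free.ChooseBasisIndex ℤ (𝓞 F)
  have hcard : Fintype.card ι = Module.finrank ℚ F := by
    rw [← Module.finrank_eq_card_chooseBasisIndex, RingOfIntegers.rank]
  have hn : 0 < Module.finrank ℚ F := Module.finrank_pos
  set n := Module.finrank ℚ F with hnd
  let K : ℝ := 1 + ∑ φ : F →+* ℂ, ∑ i : ι, ‖φ (b i : F)‖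
  have hK0 : ∀ φ : F →+* ℂ, ∑ i : ι, ‖φ (b i : F)‖ ≤ K := by
    intro φ
    have h1 : ∑ i : ι, ‖φ (b i : F)‖ ≤ ∑ φ : F →+* ℂ, ∑ i : ι, ‖φ (b i : F)‖ :=
      Finset.single_le_sum (f := fun φ : F →+* ℂ => ∑ i : ι, ‖φ (b i : F)‖)
        (fun φ _ => Finset.sum_nonneg fun i _ => norm_nonneg _) (Finset.mem_univ φ)
    show _ ≤ 1 + _
    linarith
  refine ⟨K, ?_, ?_⟩
  · have : 0 ≤ ∑ φ : F →+* ℂ, ∑ i : ι, ‖φ (b i : F)‖ :=
      Finset.sum_nonneg fun φ _ => Finset.sum_nonneg fun i _ => norm_nonneg _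
    show 1 ≤ 1 + _
    linarith
  intro I hI
  have hN0 : Ideal.absNorm I ≠ 0 := by
    rw [Ne, Ideal.absNorm_eq_zero_iff]; exact hI
  set N := Ideal.absNorm I with hN
  set R : ℝ := (N : ℝ) ^ ((1 : ℝ) / n) with hR
  have hR0 : 0 ≤ R := Real.rpow_nonneg (Nat.cast_nonneg _) _
  have hRn : R ^ n = N := by
    rw [hR, ← Real.rpow_natCast, ← Real.rpow_mul (Nat.cast_nonneg _), one_div,
      inv_mul_cancel₀ (by exact_mod_cast hn.ne'), Real.rpow_one]
  set B : ℕ := ⌊R⌋₊ with hB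
  have hfin : Finite (𝓞 F ⧸ I) := Ideal.finiteQuotientOfFreeOfNeBot _ hI
  have hft : Fintype (𝓞 F ⧸ I) := Fintype.ofFinite _
  have hcN : Fintype.card (𝓞 F ⧸ I) = N := by
    rw [← Nat.card_eq_fintype_card]; rfl
  have hlt : Fintype.card (𝓞 F ⧸ I) < Fintype.card (ι → Fin (B + 1)) := by
    rw [hcN, Fintype.card_fun, Fintype.card_fin, hcard]
    have h1 : R < (B : ℝ) + 1 := Nat.lt_floor_add_one R
    have h2 : (N : ℝ) < ((B : ℝ) + 1) ^ n := by
      rw [← hRn]
      exact pow_lt_pow_left₀ h1 hR0 hn.ne'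
    exact_mod_cast h2
  obtain ⟨c, c', hcc, heq⟩ := Fintype.exists_ne_map_eq_of_card_lt
    (fun c : ι → Fin (B + 1) => Ideal.Quotient.mk I (∑ i, ((c i : ℕ) : ℤ) • b i)) hlt
  refine ⟨∑ i, (((c i : ℕ) : ℤ) - ((c' i : ℕ) : ℤ)) • b i, ?_, ?_, ?_⟩
  · have h1 := Ideal.Quotient.eq.1 heq
    simpa [sub_smul, Finset.sum_sub_distrib] using h1
  · intro h0
    apply hcc
    funext i
    have h1 := Fintype.linearIndependent_iff.1 b.linearIndependent _ h0 i
    have h2 : ((c i : ℕ) : ℤ) = ((c' i : ℕ) : ℤ) := sub_eq_zero.1 h1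
    exact Fin.ext (by exact_mod_cast h2)
  · intro φ
    have h1 : φ ((∑ i, (((c i : ℕ) : ℤ) - ((c' i : ℕ) : ℤ)) • b i : 𝓞 F) : F) =
        ∑ i, ((((c i : ℕ) : ℤ) - ((c' i : ℕ) : ℤ) : ℤ) : ℂ) * φ (b i : F) := by
      show φ (algebraMap (𝓞 F) F _) = _
      rw [map_sum, map_sum]
      refine Finset.sum_congr rfl fun i _ => ?_
      rw [zsmul_eq_mul, map_mul, map_mul, map_intCast, map_intCast]
    rw [h1]
    refine (norm_sum_le _ _).trans ?_
    have hBR : (B : ℝ) ≤ R := Nat.floor_le hR0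
    have h2 : ∀ i, ‖((((c i : ℕ) : ℤ) - ((c' i : ℕ) : ℤ) : ℤ) : ℂ) * φ (b i : F)‖ ≤
        ‖φ (b i : F)‖ * R := by
      intro i
      rw [norm_mul, mul_comm]
      refine mul_le_mul_of_nonneg_left ?_ (norm_nonneg _)
      rw [Complex.norm_intCast]
      have h3 : |((c i : ℕ) : ℤ) - ((c' i : ℕ) : ℤ)| ≤ B := by
        have := (c i).isLt
        have := (c' i).isLt
        rw [abs_le]
        constructor <;> omega
      calc |((((c i : ℕ) : ℤ) - ((c' i : ℕ) : ℤ) : ℤ) : ℝ)|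
          = ((|((c i : ℕ) : ℤ) - ((c' i : ℕ) : ℤ)| : ℤ) : ℝ) := by push_cast; rfl
        _ ≤ ((B : ℤ) : ℝ) := by exact_mod_cast h3
        _ ≤ R := by simpa using hBR
    refine (Finset.sum_le_sum fun i _ => h2 i).trans ?_
    rw [← Finset.sum_mul]
    exact mul_le_mul_of_nonneg_right (hK0 φ) hR0

end small

section unram

variable {F : Type} [Field F] [NumberField F]

theorem absNorm_mem_dvd {Q : Pr F} {p : ℕ} (hp : p.Prime) (hQ : (p : 𝓞 F) ∈ Q.asIdeal) :
    p ∣ nm Q := by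
  have h1 : ((Ideal.absNorm Q.asIdeal : ℤ) : 𝓞 F) ∈ Q.asIdeal := by
    rw [Int.cast_natCast]; exact Ideal.absNorm_mem _
  have h2 := dvd_of_mem hp hQ h1
  exact_mod_cast h2

/-- primes not dividing the discriminant are unramified -/
theorem not_mem_sq {Q : Pr F} {p : ℕ} (hp : p.Prime) (hQ : (p : 𝓞 F) ∈ Q.asIdeal)
    (hd : ¬ p ∣ (discr F).natAbs) : (p : 𝓞 F) ∉ Q.asIdeal ^ 2 := by
  intro h
  have hmax : (Ideal.span {(p : ℤ)}).IsMaximal :=
    PrincipalIdealRing.isMaximal_of_irreducible (Nat.prime_iff_prime_int.1 hp).irreducible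
  have hne : Ideal.span {(p : ℤ)} ≠ ⊥ := by
    rw [Ne, Ideal.span_singleton_eq_bot]
    exact_mod_cast hp.ne_zero
  have h1 : Q.asIdeal ^ 2 ∣ (Ideal.span {(p : ℤ)}).map (algebraMap ℤ (𝓞 F)) := by
    rw [Ideal.map_span, Set.image_singleton, Ideal.dvd_span_singleton]
    simpa using h
  have := Q.isPrime
  have h2 := pow_sub_one_dvd_differentIdeal ℤ Q.asIdeal 2 hne h1
  have h3 : Ideal.absNorm Q.asIdeal ∣ Ideal.absNorm (differentIdeal ℤ (𝓞 F)) := by
    have := Ideal.absNorm_dvd_absNorm_of_le (Ideal.dvd_iff_le.1 h2)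
    simpa using this
  rw [absNorm_differentIdeal (K := F)] at h3
  exact hd ((absNorm_mem_dvd hp hQ).trans h3)

/-- two elements of `Q`, not in the square of `Q`, have the same valuation -/
theorem val_eq_of_not_mem_sq {Q : Pr F} {x y : 𝓞 F} (hx : x ∈ Q.asIdeal) (hx2 : x ∉ Q.asIdeal ^ 2)
    (hy : y ∈ Q.asIdeal) (hy2 : y ∉ Q.asIdeal ^ 2) :
    Q.valuation F (x : F) = Q.valuation F (y : F) := by
  have key : ∀ x : 𝓞 F, x ∈ Q.asIdeal → x ∉ Q.asIdeal ^ 2 →
      Q.intValuation x = WithZero.exp (-(1 : ℤ)) := by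
    intro x hx hx2
    have h1 : Q.intValuation x ≤ WithZero.exp (-((1 : ℕ) : ℤ)) :=
      (Q.intValuation_le_pow_iff_mem x 1).2 (by simpa using hx)
    have h2 : ¬ Q.intValuation x ≤ WithZero.exp (-((2 : ℕ) : ℤ)) := fun h =>
      hx2 ((Q.intValuation_le_pow_iff_mem x 2).1 h)
    have hx0 : x ≠ 0 := by rintro rfl; exact hx2 (zero_mem _)
    have h0 : Q.intValuation x ≠ 0 := Q.intValuation_ne_zero x hx0
    obtain ⟨a, ha⟩ : ∃ a : ℤ, Q.intValuation x = WithZero.exp a :=
      ⟨WithZero.log (Q.intValuation x), (WithZero.exp_log h0).symm⟩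
    rw [ha, WithZero.exp_le_exp] at h1 h2
    rw [ha]
    congr 1
    push_cast at h1 h2
    omega
  rw [HeightOneSpectrum.valuation_of_algebraMap, HeightOneSpectrum.valuation_of_algebraMap,
    key x hx hx2, key y hy hy2]

end unram

section below

variable {F L : Type} [Field F] [NumberField F] [Field L] [NumberField L]

/-- the prime of `F` below `P` -/
def below (ι : F →+* L) (P : Pr L) : Pr F where
  asIdeal := P.asIdeal.comap (RingOfIntegers.mapRingHom ι)
  isPrime := by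
    have := P.isPrime
    exact Ideal.comap_isPrime _ _
  ne_bot := by
    intro h
    obtain ⟨p, hp, hP⟩ := exists_prime P
    have h1 : (p : 𝓞 F) ∈ P.asIdeal.comap (RingOfIntegers.mapRingHom ι) := by
      rw [Ideal.mem_comap, map_natCast]
      exact hP
    rw [h, Ideal.mem_bot] at h1
    exact hp.ne_zero (by exact_mod_cast h1)

theorem mem_below (ι : F →+* L) (P : Pr L) (x : 𝓞 F) :
    x ∈ (below ι P).asIdeal ↔ P.valuation L (ι (x : F)) < 1 := by
  have h1 : ι (x : F) = ((RingOfIntegers.mapRingHom ι x : 𝓞 L) : L) := rfl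
  rw [h1, val_int_lt]
  rfl

theorem below_one (ι : F →+* L) (P : Pr L) {z : F} (h : (below ι P).valuation F z = 1) :
    P.valuation L (ι z) = 1 := by
  obtain ⟨a, b, hb, hab⟩ := exists_frac (below ι P) h.le
  have hbv : (below ι P).valuation F (b : F) = 1 := (val_int_one _ _).2 hb
  have hav : (below ι P).valuation F (a : F) = 1 := by rw [← hab, map_mul, h, hbv, one_mul]
  have ha : a ∉ (below ι P).asIdeal := (val_int_one _ _).1 hav
  have key : ∀ x : 𝓞 F, x ∉ (below ι P).asIdeal → P.valuation L (ι (x : F)) = 1 := by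
    intro x hx
    rw [mem_below, not_lt] at hx
    exact le_antisymm (val_int P (RingOfIntegers.mapRingHom ι x)) hx
  have h1 := congrArg (fun t => P.valuation L (ι t)) hab
  simp only [map_mul, key a ha, key b hb, mul_one] at h1
  exact h1

theorem below_lt (ι : F →+* L) (P : Pr L) {z : F} (h : (below ι P).valuation F z < 1) :
    P.valuation L (ι z) < 1 := by
  obtain ⟨a, b, hb, hab⟩ := exists_frac (below ι P) h.le
  have hbv : (below ι P).valuation F (b : F) = 1 := (val_int_one _ _).2 hb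
  have hav : (below ι P).valuation F (a : F) < 1 := by rwa [← hab, map_mul, hbv, mul_one]
  have ha : a ∈ (below ι P).asIdeal := (val_int_lt _ _).1 hav
  rw [mem_below] at ha
  rw [mem_below, not_lt] at hb
  have hb1 : P.valuation L (ι (b : F)) = 1 :=
    le_antisymm (val_int P (RingOfIntegers.mapRingHom ι b)) hb
  have h1 := congrArg (fun t => P.valuation L (ι t)) hab
  simp only [map_mul, hb1, mul_one] at h1
  rwa [h1]

theorem below_lt_iff (ι : F →+* L) (P : Pr L) (z : F) :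
    P.valuation L (ι z) < 1 ↔ (below ι P).valuation F z < 1 := by
  refine ⟨fun h => ?_, below_lt ι P⟩
  by_contra h1
  rcases (not_lt.1 h1).eq_or_lt with h2 | h2
  · rw [below_one ι P h2.symm] at h
    exact lt_irrefl _ h
  · have hz : z ≠ 0 := by
      rintro rfl
      simp at h2
    have h3 : (below ι P).valuation F z⁻¹ < 1 := by
      rw [map_inv₀]
      exact inv_lt_one_of_one_lt₀ h2
    have h4 := below_lt ι P h3
    rw [map_inv₀, map_inv₀] at h4
    have h5 : P.valuation L (ι z) ≠ 0 := val_ne_zero P (by simpa using hz)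
    exact absurd h ((inv_lt_one₀ (zero_lt_iff.2 h5)).1 h4).not_gt

end below

end Pool.Agent.Helper88.HG
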