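import Pool.Agent.Helper88.HG.Core

/-!
# Block THUE of project HG
-/

set_option autoImplicit false

namespace Pool.Agent.Helper88.HG

open Polynomial NumberField IsDedekindDomain Pool.Agent.HG
open scoped IntermediateField

section norm

variable {F : Type} [Field F] [NumberField F]

theorem absNorm_cast (x : 𝓞 F) : ((Ideal.absNorm (Ideal.span {x}) : ℕ) : ℚ) =
    |Algebra.norm ℚ (x : F)| := by
  rw [Ideal.absNorm_span_singleton, ← Algebra.coe_norm_int, Nat.cast_natAbs, Int.cast_abs]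

theorem norm_bound (x : 𝓞 F) {R : ℝ} (h : ∀ φ : F →+* ℂ, ‖φ (x : F)‖ ≤ R) :
    ((Ideal.absNorm (Ideal.span {x}) : ℕ) : ℝ) ≤ R ^ Module.finrank ℚ F := by
  have h1 := Algebra.norm_eq_prod_embeddings ℚ ℂ (x : F)
  have h2 : ((Ideal.absNorm (Ideal.span {x}) : ℕ) : ℝ) = ‖∏ σ : F →ₐ[ℚ] ℂ, σ (x : F)‖ := by
    rw [← h1]
    have h3 : ((Ideal.absNorm (Ideal.span {x}) : ℕ) : ℝ) =
        (((Ideal.absNorm (Ideal.span {x}) : ℕ) : ℚ) : ℝ) := by push_cast; rfl
    rw [h3, absNorm_cast]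
    simp
  rw [h2, norm_prod, ← AlgHom.card ℚ F ℂ, ← Finset.card_univ]
  rw [← Finset.prod_const]
  exact Finset.prod_le_prod (fun _ _ => norm_nonneg _) fun σ _ => h (σ : F →+* ℂ)

end norm

section main

variable (k F L : Type) [Field k] [NumberField k] [Field F] [NumberField F] [Field L]
  [NumberField L] [Algebra k F] [Algebra k L] [IsGalois k L] (f : k[X])

theorem thue_F (o : F) (hgen : ∀ z : F, ∃ g : k[X], z = aeval o g)
    (hof : ∀ ι : F →ₐ[k] L, ι o ∈ f.rootSet L) :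
    ∃ (M₀ : ℕ) (K₀ : ℝ), M₀ ≠ 0 ∧ 1 ≤ K₀ ∧ ∀ M : ℕ, M₀ ∣ M →
      (∀ (p : ℕ) (v : Pr k) (P : Pr L), Over M p v P → ∀ θ ∈ f.rootSet L, P.valuation L θ ≤ 1) →
      (∀ (p : ℕ) (v : Pr k) (P : Pr L), Over M p v P → ∀ θ ∈ f.rootSet L, ∀ θ' ∈ f.rootSet L,
        θ ≠ θ' → P.valuation L (θ - θ') = 1) →
      ∀ (p : ℕ) (v : Pr k) (P : Pr L), Over M p v P → ∀ ι₀ : F →ₐ[k] L,
      P.valuation L (ι₀ o ^ nm v - ι₀ o) < 1 →
      ∃ (x : 𝓞 F) (a : ℕ), x ≠ 0 ∧ a ≠ 0 ∧ (a : ℝ) ≤ K₀ ∧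
        (∀ φ : F →+* ℂ, ‖φ (x : F)‖ ≤
          K₀ * (nm v : ℝ) ^ ((1 : ℝ) / (Module.finrank ℚ F : ℕ))) ∧
        Ideal.absNorm (Ideal.span {x}) = a * nm v ∧
        (∀ (ι : F →ₐ[k] L) (p' : ℕ) (v' : Pr k) (P' : Pr L), Over M p' v' P' → v' ≠ v →
          P'.valuation L (ι (x : F)) = 1) ∧
        ∀ a' : 𝓞 k, P.valuation L (algebraMap k L a' - ι₀ o) < 1 →
          ∀ P' : Pr L, Over M p v P' → ∀ ι : F →ₐ[k] L,
          (P'.valuation L (algebraMap k L a' - ι o) = 1 → P'.valuation L (ι (x : F)) = 1) ∧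
          (P'.valuation L (algebraMap k L a' - ι o) < 1 →
            P'.valuation L (ι (x : F)) = P'.valuation L (p : L)) := by
  obtain ⟨K, hK, hsm⟩ := exists_small F
  have hn : 0 < Module.finrank ℚ F := Module.finrank_pos
  set n := Module.finrank ℚ F with hnd
  have hKn : K ≤ K ^ n := le_self_pow₀ hK hn.ne'
  refine ⟨Nat.factorial ⌊K ^ n⌋₊ * (discr F).natAbs, K ^ n, ?_, hK.trans hKn, ?_⟩
  · refine mul_ne_zero (Nat.factorial_ne_zero _) ?_
    rw [Ne, Int.natAbs_eq_zero]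
    exact discr_ne_zero F
  intro M hM hint hsep p v P hPv ι₀ ho
  have hdisc : ∀ q : ℕ, ¬ q ∣ M → ¬ q ∣ (discr F).natAbs := fun q hq h =>
    hq ((h.mul_left _).trans hM)
  have hbig : ∀ q : ℕ, q.Prime → ¬ q ∣ M → ⌊K ^ n⌋₊ < q := fun q hqp hq => by
    by_contra h
    exact hq (((hqp.dvd_factorial.2 (not_lt.1 h)).mul_right _).trans hM)
  have hres := below_residue o hgen hof (hsep p v P hPv) (hint p v P hPv) hPv.comap ι₀ ho
  have hQv := below_comap ι₀ hPv.comap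
  set Q := below (ι₀ : F →+* L) P with hQ
  have hnm : nm Q = nm v := nm_eq hQv hres
  obtain ⟨x, hxQ, hx0, hx⟩ := hsm Q.asIdeal Q.ne_bot
  have hx' : ∀ φ : F →+* ℂ, ‖φ (x : F)‖ ≤ K * (nm v : ℝ) ^ ((1 : ℝ) / n) := by
    rw [← hnm]; exact hx
  have hspan : Ideal.span {x} ≠ ⊥ := by
    rw [Ne, Ideal.span_singleton_eq_bot]; exact hx0
  have hN0 : Ideal.absNorm (Ideal.span {x}) ≠ 0 := by
    rw [Ne, Ideal.absNorm_eq_zero_iff]; exact hspan
  obtain ⟨a, ha⟩ : nm Q ∣ Ideal.absNorm (Ideal.span {x}) :=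
    Ideal.absNorm_dvd_absNorm_of_le ((Ideal.span_singleton_le_iff_mem _).2 hxQ)
  rw [mul_comm] at ha
  have ha0 : a ≠ 0 := by
    rintro rfl
    rw [zero_mul] at ha
    exact hN0 ha
  have hnpos : (0 : ℝ) < nm v := by
    have := one_lt_nm v
    exact_mod_cast (by omega : 0 < nm v)
  have haK : (a : ℝ) ≤ K ^ n := by
    have h1 := norm_bound x hx'
    rw [ha, hnm, mul_pow, ← hnd, ← Real.rpow_natCast ((nm v : ℝ) ^ ((1 : ℝ) / n)),
      ← Real.rpow_mul hnpos.le, one_div, inv_mul_cancel₀ (by exact_mod_cast hn.ne'),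
      Real.rpow_one] at h1
    push_cast at h1
    exact le_of_mul_le_mul_right h1 hnpos
  have haf : a ≤ ⌊K ^ n⌋₊ := Nat.le_floor haK
  have hmemp : ∀ (p' : ℕ) (v' : Pr k) (P' : Pr L), Over M p' v' P' → ∀ ι : F →ₐ[k] L,
      ((p' : ℕ) : 𝓞 F) ∈ (below (ι : F →+* L) P').asIdeal := by
    intro p' v' P' h ι
    have h1 := below_comap ι h.comap
    have h2 : (p' : 𝓞 k) ∈ (below (ι : F →+* L) P').asIdeal.comap (algebraMap (𝓞 k) (𝓞 F)) := by
      rw [h1]; exact h.mem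
    rw [Ideal.mem_comap, map_natCast] at h2
    exact h2
  -- the only prime of `F` outside `M` which contains `x` is `Q`
  have key : ∀ (p' : ℕ) (v' : Pr k) (P' : Pr L), Over M p' v' P' → ∀ ι : F →ₐ[k] L,
      P'.valuation L (ι (x : F)) < 1 → below (ι : F →+* L) P' = Q := by
    intro p' v' P' h ι hlt
    have h1 : x ∈ (below (ι : F →+* L) P').asIdeal := (mem_below _ _ _).2 hlt
    exact unique_div ha0 ha h.prime (haf.trans_lt (hbig p' h.prime h.not_dvd))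
      (hmemp p' v' P' h ι) hxQ h1
  have hle : ∀ (P' : Pr L) (ι : F →ₐ[k] L), P'.valuation L (ι (x : F)) ≤ 1 := fun P' ι =>
    val_int P' (RingOfIntegers.mapRingHom (ι : F →+* L) x)
  refine ⟨x, a, hx0, ha0, haK, fun φ => (hx' φ).trans (mul_le_mul_of_nonneg_right hKn
    (Real.rpow_nonneg hnpos.le _)), by rw [ha, hnm], ?_, ?_⟩
  · intro ι p' v' P' h hne
    by_contra h1
    have h2 := key p' v' P' h ι (lt_of_le_of_ne (hle P' ι) h1)
    apply hne
    apply HeightOneSpectrum.ext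
    rw [← below_comap ι h.comap, h2, hQv]
  · intro a' ha' P' h ι
    have haF : ∀ ι : F →ₐ[k] L, algebraMap k L a' - ι o = ι (algebraMap k F a' - o) := by
      intro ι
      rw [map_sub, ι.commutes]
    constructor
    · intro h1
      by_contra h2
      have h3 := key p v P' h ι (lt_of_le_of_ne (hle P' ι) h2)
      rw [haF] at ha' h1
      have h4 := (below_lt_iff (ι₀ : F →+* L) P _).1 ha'
      rw [← hQ, ← h3, ← below_lt_iff] at h4
      exact absurd h1 h4.ne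
    · intro h1
      have h2 := below_unique o hgen hof (hsep p v P' h) hPv.comap h.comap a' ι₀ ι ha' h1
      rw [← hQ] at h2
      have hpQ : (p : 𝓞 F) ∈ Q.asIdeal := by
        rw [h2]; exact hmemp p v P' h ι
      have hx2 := not_sq ha0 ha hPv.prime (haf.trans_lt (hbig p hPv.prime hPv.not_dvd)) hpQ
      have hp2 := not_mem_sq hPv.prime hpQ (hdisc p hPv.not_dvd)
      have h3 := val_eq_of_not_mem_sq hxQ hx2 hpQ hp2
      have hp0 : ((p : 𝓞 F) : F) ≠ 0 := by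
        push_cast
        exact_mod_cast hPv.prime.ne_zero
      have h4 : Q.valuation F ((x : F) / ((p : 𝓞 F) : F)) = 1 := by
        rw [map_div₀, h3]
        exact div_self (val_ne_zero Q hp0)
      rw [h2] at h4
      have h5 := below_one (ι : F →+* L) P' h4
      rw [map_div₀, map_div₀] at h5
      have h6 : (ι : F →+* L) ((p : 𝓞 F) : F) = (p : L) := by
        push_cast
        exact map_natCast _ _
      rw [h6] at h5
      have h7 : P'.valuation L (p : L) ≠ 0 := val_ne_zero P' (by exact_mod_cast hPv.prime.ne_zero)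
      exact (div_eq_one_iff_eq h7).1 h5

variable {L f}

/-- one root -/
theorem thue_single (hf : f ≠ 0) (o : L) (ho : o ∈ f.rootSet L) :
    ∃ (M₀ : ℕ) (K₀ : ℝ), M₀ ≠ 0 ∧ 1 ≤ K₀ ∧ ∀ (M : ℕ) (K : ℝ), M₀ ∣ M → K₀ ≤ K →
      (∀ (p : ℕ) (v : Pr k) (P : Pr L), Over M p v P → ∀ θ ∈ f.rootSet L, P.valuation L θ ≤ 1) →
      (∀ (p : ℕ) (v : Pr k) (P : Pr L), Over M p v P → ∀ θ ∈ f.rootSet L, ∀ θ' ∈ f.rootSet L,
        θ ≠ θ' → P.valuation L (θ - θ') = 1) →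
      ∀ (p : ℕ) (v : Pr k) (P : Pr L), Over M p v P → P.valuation L (o ^ nm v - o) < 1 →
      ∃ (B : k[X]) (a : ℕ), a ≠ 0 ∧ (a : ℝ) ≤ K ∧
        (∀ θ ∈ f.rootSet L, minpoly k θ = minpoly k o →
          IsIntegral ℤ (aeval θ B) ∧ aeval θ B ≠ 0 ∧
          (∀ φ : L →+* ℂ, ‖φ (aeval θ B)‖ ≤
            K * (nm v : ℝ) ^ ((1 : ℝ) / (Module.finrank ℚ k * (minpoly k o).natDegree : ℕ))) ∧
          |Algebra.norm ℚ (aeval (IntermediateField.AdjoinSimple.gen k θ) B)| = a * nm v) ∧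
        (∀ (p' : ℕ) (v' : Pr k) (P' : Pr L), Over M p' v' P' → v' ≠ v →
          ∀ θ ∈ f.rootSet L, minpoly k θ = minpoly k o → P'.valuation L (aeval θ B) = 1) ∧
        ∀ a' : 𝓞 k, P.valuation L (algebraMap k L a' - o) < 1 →
          ∀ P' : Pr L, Over M p v P' → ∀ θ ∈ f.rootSet L, minpoly k θ = minpoly k o →
            (P'.valuation L (algebraMap k L a' - θ) = 1 → P'.valuation L (aeval θ B) = 1) ∧
            (P'.valuation L (algebraMap k L a' - θ) < 1 →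
              P'.valuation L (aeval θ B) = P'.valuation L (p : L)) := by
  have hfd : FiniteDimensional k L := FiniteDimensional.right ℚ k L
  have hfd2 : FiniteDimensional ℚ k⟮o⟯ := FiniteDimensional.trans ℚ k k⟮o⟯
  have hnf : NumberField k⟮o⟯ := ⟨⟩
  have hinto : IsIntegral k o := Algebra.IsIntegral.isIntegral o
  have hgen : ∀ z : k⟮o⟯, ∃ g : k[X], z = aeval (IntermediateField.AdjoinSimple.gen k o) g := by
    intro z
    obtain ⟨g, hg⟩ := (IntermediateField.adjoin.powerBasis hinto).exists_eq_aeval' z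
    exact ⟨g, by rw [hg]; rfl⟩
  have hfroot : ∀ ι : k⟮o⟯ →ₐ[k] L, ι (IntermediateField.AdjoinSimple.gen k o) ∈ f.rootSet L := by
    intro ι
    rw [mem_rootSet_of_ne hf] at ho ⊢
    have h1 : aeval (IntermediateField.AdjoinSimple.gen k o) f = 0 := by
      apply (algebraMap k⟮o⟯ L).injective
      rw [map_zero, ← aeval_algebraMap_apply, IntermediateField.AdjoinSimple.algebraMap_gen]
      exact ho
    rw [aeval_algHom_apply, h1, map_zero]
  obtain ⟨M₀, K₀, hM₀, hK₀, h⟩ := thue_F k k⟮o⟯ L f (IntermediateField.AdjoinSimple.gen k o) hgen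
    hfroot
  refine ⟨M₀, K₀, hM₀, hK₀, ?_⟩
  intro M K hM hK hint hsep p v P hP hoP
  obtain ⟨x, a, hx0, ha0, haK, hsmall, hnorm, hunit, habove⟩ := h M hM hint hsep p v P hP
    k⟮o⟯.val (by simpa using hoP)
  obtain ⟨B, hB⟩ := hgen (x : k⟮o⟯)
  have hdeg : Module.finrank ℚ k⟮o⟯ = Module.finrank ℚ k * (minpoly k o).natDegree := by
    rw [← Module.finrank_mul_finrank ℚ k k⟮o⟯, IntermediateField.adjoin.finrank hinto]
  -- the embedding and the conjugate field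
  have hconj : ∀ θ ∈ f.rootSet L, minpoly k θ = minpoly k o → ∃ e : k⟮o⟯ ≃ₐ[k] k⟮θ⟯,
      e (IntermediateField.AdjoinSimple.gen k o) = IntermediateField.AdjoinSimple.gen k θ := by
    intro θ _ hmin
    have hintθ : IsIntegral k θ := Algebra.IsIntegral.isIntegral θ
    refine ⟨(IntermediateField.adjoin.powerBasis hinto).equivOfMinpoly
      (IntermediateField.adjoin.powerBasis hintθ) ?_, ?_⟩
    · rw [IntermediateField.adjoin.powerBasis_gen, IntermediateField.adjoin.powerBasis_gen,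
        IntermediateField.minpoly_gen, IntermediateField.minpoly_gen, hmin]
    · exact PowerBasis.equivOfMinpoly_gen _ _ _
  refine ⟨B, a, ha0, haK.trans hK, ?_, ?_, ?_⟩
  · intro θ hθ hmin
    obtain ⟨e, he⟩ := hconj θ hθ hmin
    have h1 : e (x : k⟮o⟯) = aeval (IntermediateField.AdjoinSimple.gen k θ) B := by
      rw [hB, ← he]
      exact (aeval_algHom_apply (e : k⟮o⟯ →ₐ[k] k⟮θ⟯) _ B).symm
    have h2 : aeval θ B = k⟮θ⟯.val (e (x : k⟮o⟯)) := by
      rw [h1, ← aeval_algHom_apply]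
      rfl
    refine ⟨?_, ?_, ?_, ?_⟩
    · rw [h2]
      exact ((RingOfIntegers.isIntegral_coe x).map (e : k⟮o⟯ →ₐ[k] k⟮θ⟯)).map k⟮θ⟯.val
    · rw [h2]
      intro h0
      rw [map_eq_zero, map_eq_zero] at h0
      exact hx0 (by exact_mod_cast h0)
    · intro φ
      have h3 := hsmall (φ.comp ((k⟮θ⟯.val.comp (e : k⟮o⟯ →ₐ[k] k⟮θ⟯) : k⟮o⟯ →ₐ[k] L) :
        k⟮o⟯ →+* L))
      rw [hdeg] at h3
      rw [h2]
      refine h3.trans (mul_le_mul_of_nonneg_right hK (Real.rpow_nonneg (Nat.cast_nonneg _) _))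
    · have h3 : Algebra.norm ℚ (aeval (IntermediateField.AdjoinSimple.gen k θ) B) =
          Algebra.norm ℚ (x : k⟮o⟯) := by
        rw [← h1]
        exact (Algebra.norm_eq_of_algEquiv (e.restrictScalars ℚ) (x : k⟮o⟯))
      rw [h3, ← absNorm_cast, hnorm]
      push_cast
      rfl
  · intro p' v' P' h' hne θ hθ hmin
    obtain ⟨e, he⟩ := hconj θ hθ hmin
    have h0 : (k⟮θ⟯.val.comp (e : k⟮o⟯ →ₐ[k] k⟮θ⟯)) (IntermediateField.AdjoinSimple.gen k o) = θ := by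
      show k⟮θ⟯.val (e _) = θ
      rw [he]
      rfl
    have h2 : aeval θ B = (k⟮θ⟯.val.comp (e : k⟮o⟯ →ₐ[k] k⟮θ⟯)) (x : k⟮o⟯) := by
      rw [hB, ← aeval_algHom_apply, h0]
    rw [h2]
    exact hunit _ p' v' P' h' hne
  · intro a' ha' P' hP' θ hθ hmin
    obtain ⟨e, he⟩ := hconj θ hθ hmin
    have h0 : (k⟮θ⟯.val.comp (e : k⟮o⟯ →ₐ[k] k⟮θ⟯)) (IntermediateField.AdjoinSimple.gen k o) = θ := by
      show k⟮θ⟯.val (e _) = θ
      rw [he]
      rfl
    have h2 : aeval θ B = (k⟮θ⟯.val.comp (e : k⟮o⟯ →ₐ[k] k⟮θ⟯)) (x : k⟮o⟯) := by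
      rw [hB, ← aeval_algHom_apply, h0]
    have h3 := habove a' (by simpa using ha') P' hP' (k⟮θ⟯.val.comp (e : k⟮o⟯ →ₐ[k] k⟮θ⟯))
    rw [h0] at h3
    rw [h2]
    exact h3

/-- the roots are integral and different outside some `M` -/
theorem exists_M_roots (L : Type) [Field L] [NumberField L] [Algebra k L] (f : k[X]) :
    ∃ M₁ : ℕ, M₁ ≠ 0 ∧ ∀ (M p : ℕ) (v : Pr k) (P : Pr L), M₁ ∣ M → Over M p v P →
      (∀ θ ∈ f.rootSet L, P.valuation L θ ≤ 1) ∧
      ∀ θ ∈ f.rootSet L, ∀ θ' ∈ f.rootSet L, θ ≠ θ' → P.valuation L (θ - θ') = 1 := by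
  classical
  set R : Finset L := (f.rootSet_finite L).toFinset with hR
  have hmem : ∀ θ, θ ∈ R ↔ θ ∈ f.rootSet L := fun θ => Set.Finite.mem_toFinset _
  obtain ⟨M₁, hM₁, h⟩ := exists_M_unit
    (((R ×ˢ R).image (fun t => t.1 - t.2) ∪ R).filter (· ≠ 0)) (fun z hz => (Finset.mem_filter.1 hz).2)
  refine ⟨M₁, hM₁, fun M p v P hM hP => ?_⟩
  have hPp : (p : 𝓞 L) ∈ P.asIdeal := by
    have h1 := hP.mem
    rw [← hP.comap, Ideal.mem_comap, map_natCast] at h1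
    exact h1
  have h1 := h p P hP.prime (fun hd => hP.not_dvd (hd.trans hM)) hPp
  constructor
  · intro θ hθ
    by_cases h0 : θ = 0
    · rw [h0, map_zero]; exact zero_le_one
    · exact (h1 θ (Finset.mem_filter.2 ⟨Finset.mem_union_right _ ((hmem _).2 hθ), h0⟩)).le
  · intro θ hθ θ' hθ' hne
    exact h1 _ (Finset.mem_filter.2 ⟨Finset.mem_union_left _ (Finset.mem_image.2
      ⟨(θ, θ'), Finset.mem_product.2 ⟨(hmem _).2 hθ, (hmem _).2 hθ'⟩, rfl⟩), sub_ne_zero.2 hne⟩)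

end main

/-- **Block THUE.** -/
theorem thue : StmtThue := by
  classical
  intro k _ _ f hsep L _ _ _ _ _
  have hf : f ≠ 0 := hsep.ne_zero
  obtain ⟨M₁, hM₁, hroots⟩ := exists_M_roots k L f
  have hex : ∀ o : L, ∃ t : ℕ × ℝ, t.1 ≠ 0 ∧ 1 ≤ t.2 ∧ (o ∈ f.rootSet L →
      ∀ (M : ℕ) (K : ℝ), t.1 ∣ M → t.2 ≤ K → M₁ ∣ M →
      ∀ (p : ℕ) (v : Pr k) (P : Pr L), Over M p v P → P.valuation L (o ^ nm v - o) < 1 →
      ∃ (B : k[X]) (a : ℕ), a ≠ 0 ∧ (a : ℝ) ≤ K ∧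
        (∀ θ ∈ f.rootSet L, minpoly k θ = minpoly k o →
          IsIntegral ℤ (aeval θ B) ∧ aeval θ B ≠ 0 ∧
          (∀ φ : L →+* ℂ, ‖φ (aeval θ B)‖ ≤
            K * (nm v : ℝ) ^ ((1 : ℝ) / (Module.finrank ℚ k * (minpoly k o).natDegree : ℕ))) ∧
          |Algebra.norm ℚ (aeval (IntermediateField.AdjoinSimple.gen k θ) B)| = a * nm v) ∧
        (∀ (p' : ℕ) (v' : Pr k) (P' : Pr L), Over M p' v' P' → v' ≠ v →
          ∀ θ ∈ f.rootSet L, minpoly k θ = minpoly k o → P'.valuation L (aeval θ B) = 1) ∧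
        ∀ a' : 𝓞 k, P.valuation L (algebraMap k L a' - o) < 1 →
          ∀ P' : Pr L, Over M p v P' → ∀ θ ∈ f.rootSet L, minpoly k θ = minpoly k o →
            (P'.valuation L (algebraMap k L a' - θ) = 1 → P'.valuation L (aeval θ B) = 1) ∧
            (P'.valuation L (algebraMap k L a' - θ) < 1 →
              P'.valuation L (aeval θ B) = P'.valuation L (p : L))) := by
    intro o
    by_cases ho : o ∈ f.rootSet L
    · obtain ⟨M₀, K₀, h1, h2, h3⟩ := thue_single k hf o ho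
      exact ⟨(M₀, K₀), h1, h2, fun _ M K hM hK hM' p v P hP hoP => h3 M K hM hK
        (fun p v P hP => (hroots M p v P hM' hP).1) (fun p v P hP => (hroots M p v P hM' hP).2)
        p v P hP hoP⟩
    · exact ⟨(1, 1), one_ne_zero, le_rfl, fun h => absurd h ho⟩
  choose t ht1 ht2 ht3 using hex
  set R : Finset L := (f.rootSet_finite L).toFinset with hR
  have hmem : ∀ θ, θ ∈ R ↔ θ ∈ f.rootSet L := fun θ => Set.Finite.mem_toFinset _
  refine ⟨M₁ * ∏ o ∈ R, (t o).1, 1 + ∑ o ∈ R, (t o).2,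
    mul_ne_zero hM₁ (Finset.prod_ne_zero_iff.2 fun o _ => ht1 o), ?_, ?_⟩
  · have : 0 ≤ ∑ o ∈ R, (t o).2 := Finset.sum_nonneg fun o _ => zero_le_one.trans (ht2 o)
    linarith
  · intro p v P hP o ho hoP
    refine ht3 o ho _ _ ?_ ?_ (Dvd.intro _ rfl) p v P hP hoP
    · exact (Finset.dvd_prod_of_mem (fun o => (t o).1) ((hmem o).2 ho)).mul_left _
    · have h1 : (t o).2 ≤ ∑ o ∈ R, (t o).2 := Finset.single_le_sum (f := fun o => (t o).2)
        (fun o _ => zero_le_one.trans (ht2 o)) ((hmem o).2 ho)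
      linarith

end Pool.Agent.Helper88.HG
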